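import Mathlib
import Pool.Agent.X207.GF6

/-!
A growth-fragmentation semigroup on `L¹((0,∞); x dx)` with linear growth rate `r(x) = x` and
constant fragmentation rate `a = 4` which has a spectral gap: `ω_ess(V) ≤ -3 < -1 ≤ ω(V)`.
-/

namespace Pool.Agent.Results.MP_bbd370_an.ConstantRateSpectralGap
open MeasureTheory Filter Topology Set
open Pool.Agent.X207.GF (mass X1)

/-- bounded linear operators on `X₁ = L¹((0,∞); x dx)` -/
abbrev Op : Type := X1 →L[ℝ] X1

/-- application of an operator -/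
noncomputable def ap (T : Op) (f : X1) : X1 := T f
/-- `F(t) → g` in norm as `t → 0+` -/
def Lim (F : ℝ → X1) (g : X1) : Prop := Tendsto F (𝓝[>] 0) (𝓝 g)
/-- the difference quotient `(V(t) f - f) / t` -/
noncomputable def quot (V : ℝ → Op) (f : X1) (t : ℝ) : X1 := t⁻¹ • (V t f - f)
/-- `f ≥ 0` almost everywhere -/
def Nonneg (f : X1) : Prop := 0 ≤ f

/-- the data: growth rate `r`, fragmentation rate `a` and fragmentation kernel `b` -/
structure Data (r a : ℝ → ℝ) (b : ℝ → ℝ → ℝ) : Prop where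
  r_pos : ∀ x, 0 < x → 0 < r x
  r_loc : LocallyIntegrableOn (fun x => 1 / r x) (Ioi 0)
  r_zero : ∫⁻ x in Ioc (0 : ℝ) 1, ENNReal.ofReal (1 / r x) = ⊤
  r_infty : ∫⁻ x in Ioi (1 : ℝ), ENNReal.ofReal (1 / r x) = ⊤
  a_meas : Measurable a
  a_nonneg : ∀ x, 0 < x → 0 ≤ a x
  b_meas : Measurable (fun p : ℝ × ℝ => b p.1 p.2)
  b_nonneg : ∀ x y, 0 < x → x < y → 0 ≤ b x y
  b_mass : ∀ y, 0 < y → ∫⁻ x in Ioo 0 y, ENNReal.ofReal (x * b x y) ≤ ENNReal.ofReal y

/-- `X y t` is the point of `(0, y]` with `∫_{X y t}^y dτ / r(τ) = t` -/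
def IsFlow (r : ℝ → ℝ) (X : ℝ → ℝ → ℝ) : Prop :=
  ∀ y t, 0 < y → 0 ≤ t → 0 < X y t ∧ X y t ≤ y ∧ ∫ s in (X y t)..y, 1 / r s = t

/-- `V` (restricted to `t ≥ 0`) is a `C₀`-semigroup on `X₁` -/
structure IsSemigroup (V : ℝ → Op) : Prop where
  zero : ∀ f, ap (V 0) f = f
  add : ∀ s t, 0 ≤ s → 0 ≤ t → ∀ f, ap (V (s + t)) f = ap (V s) (ap (V t) f)
  cont : ∀ f, Lim (fun t => ap (V t) f) f

/-- `U` is the transport semigroup
`(U(t) f)(y) = exp(-∫_{X(y,t)}^y a/r) f(X(y,t)) ∂_y X(y,t)` -/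
def IsTransport (r a : ℝ → ℝ) (X : ℝ → ℝ → ℝ) (U : ℝ → Op) : Prop :=
  ∀ t, 0 ≤ t → ∀ f, ∀ᵐ y ∂mass, (ap (U t) f) y =
    Real.exp (-∫ p in (X y t)..y, a p / r p) * f (X y t) * deriv (fun z => X z t) y

/-- `f` is in the domain of the generator of `V`, whose value at `f` is `g` -/
def Gen (V : ℝ → Op) (f g : X1) : Prop := Lim (quot V f) g

/-- `h = B f`, that is `h(x) = ∫_x^∞ a(y) b(x,y) f(y) dy` -/
def Frag (a : ℝ → ℝ) (b : ℝ → ℝ → ℝ) (f h : X1) : Prop :=
  ∀ᵐ x ∂mass, IntegrableOn (fun y => a y * b x y * f y) (Ioi x) ∧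
    h x = ∫ y in Ioi x, a y * b x y * f y

/-- the generator of `V` is `T₀ + B` with domain `D(T₀)`, where `T₀` is the generator of `U` -/
def GeneratedBySum (U : ℝ → Op) (a : ℝ → ℝ) (b : ℝ → ℝ → ℝ) (V : ℝ → Op) : Prop :=
  (∀ f g, Gen U f g → ∃ h, Frag a b f h) ∧
    ∀ f k, Gen V f k ↔ ∃ g h, Gen U f g ∧ Frag a b f h ∧ k = g + h

/-- `‖T‖_ess`, the distance of `T` to the compact operators -/
noncomputable def essNorm (T : Op) : ℝ := sInf {c | ∃ K : Op, IsCompactOperator K ∧ c = ‖T - K‖}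

/-- the exponential growth bound: the infimum (in the extended reals) of the real `c` such that
`N(t) ≤ M e^{ct}` for all `t ≥ 0`, with some `M` -/
noncomputable def growth (N : ℝ → ℝ) : EReal :=
  sInf {w : EReal | ∃ c : ℝ, w = c ∧ ∃ M : ℝ, ∀ t, 0 ≤ t → N t ≤ M * Real.exp (c * t)}

/-- the type `ω(V)` -/
noncomputable def typ (V : ℝ → Op) : EReal := growth fun t => ‖V t‖
/-- the essential type `ω_ess(V)` -/
noncomputable def essTyp (V : ℝ → Op) : EReal := growth fun t => essNorm (V t)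

/-- with `r(x) = x`, `a = 4` and a suitable kernel `b`, the growth-fragmentation semigroup `V`
has a spectral gap -/
theorem result : ∃ (b : ℝ → ℝ → ℝ) (X : ℝ → ℝ → ℝ) (U V : ℝ → Op),
    Data (fun x => x) (fun _ => 4) b ∧ IsFlow (fun x => x) X ∧
    IsSemigroup U ∧ IsTransport (fun x => x) (fun _ => 4) X U ∧
    IsSemigroup V ∧ (∀ t, 0 ≤ t → ∀ f, Nonneg f → Nonneg (ap (V t) f)) ∧
    GeneratedBySum U (fun _ => 4) b V ∧ essTyp V < typ V := by
  refine ⟨Pool.Agent.X207.GF.bb, fun y t => y * Real.exp (-t), Pool.Agent.X207.GF.UU,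
    Pool.Agent.X207.GF.Vop Pool.Agent.X207.GF.sys, ?_, ?_, ?_, ?_, ?_, ?_, ?_, ?_⟩
  · exact ⟨fun x hx => hx, Pool.Agent.X207.GF.loc_int, Pool.Agent.X207.GF.not_int_zero,
      Pool.Agent.X207.GF.not_int_infty, measurable_const, fun _ _ => by norm_num,
      Pool.Agent.X207.GF.bb_meas, Pool.Agent.X207.GF.bb_nonneg, Pool.Agent.X207.GF.bb_mass⟩
  · intro y t hy ht
    refine ⟨by positivity, ?_, Pool.Agent.X207.GF.flow_int y t hy⟩
    have h1 : Real.exp (-t) ≤ 1 := Real.exp_le_one_iff.mpr (by linarith)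
    show y * Real.exp (-t) ≤ y
    nlinarith
  · refine ⟨Pool.Agent.X207.GF.UU_zero, fun s t _ _ f => Pool.Agent.X207.GF.UU_add s t f, fun f => ?_⟩
    have := (Pool.Agent.X207.GF.UU_cont f).tendsto 0
    rw [Pool.Agent.X207.GF.UU_zero] at this
    exact this.mono_left nhdsWithin_le_nhds
  · intro t ht f
    filter_upwards [Pool.Agent.X207.GF.UU_coe t f, Pool.Agent.X207.GF.mass_pos] with y h1 hy
    have e1 : ∫ p in (y * Real.exp (-t))..y, (4 : ℝ) / p = 4 * t := by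
      have := Pool.Agent.X207.GF.flow_int y t hy
      calc ∫ p in (y * Real.exp (-t))..y, (4 : ℝ) / p
          = ∫ p in (y * Real.exp (-t))..y, 4 * (1 / p) := by
            apply intervalIntegral.integral_congr
            intro p _
            simp only []
            ring
        _ = 4 * t := by rw [intervalIntegral.integral_const_mul, this]
    have e2 : deriv (fun z : ℝ => z * Real.exp (-t)) y = Real.exp (-t) := by
      rw [deriv_mul_const (differentiableAt_id), deriv_id'', one_mul]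
    show (Pool.Agent.X207.GF.UU t f) y = _
    rw [h1, e1, e2, mul_comm (Real.exp (-t)) y]
    have e3 : Real.exp (-(5 * t)) = Real.exp (-(4 * t)) * Real.exp (-t) := by
      rw [← Real.exp_add]; congr 1; ring
    rw [e3]; ring
  · exact ⟨Pool.Agent.X207.GF.Vop_zero _, fun s t hs ht f => Pool.Agent.X207.GF.Vop_add _ hs ht f,
      fun f => Pool.Agent.X207.GF.Sys.vlim _ f⟩
  · intro t ht f hf
    exact Pool.Agent.X207.GF.VV_nonneg t ht hf
  · have hfrag : ∀ f : X1, Frag (fun _ => 4) Pool.Agent.X207.GF.bb f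
        (Pool.Agent.X207.GF.ph f • Pool.Agent.X207.GF.be) := by
      intro f
      filter_upwards [Pool.Agent.X207.GF.ph_be_coe f] with x hx
      have h := Pool.Agent.X207.GF.frag_eq f x
      exact ⟨h.1, by rw [hx, h.2]⟩
    refine ⟨fun f g _ => ⟨_, hfrag f⟩, fun f k => ?_⟩
    have hgen := Pool.Agent.X207.GF.Sys.gen Pool.Agent.X207.GF.sys f k
    constructor
    · intro h
      exact ⟨_, _, hgen.mp h, hfrag f, (sub_add_cancel _ _).symm⟩
    · rintro ⟨g, h, hg, hh, rfl⟩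
      have e : h = Pool.Agent.X207.GF.ph f • Pool.Agent.X207.GF.be := by
        apply Lp.ext
        filter_upwards [hh, hfrag f] with x h1 h2
        rw [h1.2, h2.2]
      apply hgen.mpr
      rw [e, add_sub_cancel_right]
      exact hg
  · have h1 : essTyp (Pool.Agent.X207.GF.Vop Pool.Agent.X207.GF.sys) ≤ ((-3 : ℝ) : EReal) :=
      Pool.Agent.X207.GF.growth_ess
    have h2 : ((-1 : ℝ) : EReal) ≤ typ (Pool.Agent.X207.GF.Vop Pool.Agent.X207.GF.sys) :=
      Pool.Agent.X207.GF.growth_lower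
    refine lt_of_le_of_lt h1 (lt_of_lt_of_le ?_ h2)
    rw [EReal.coe_lt_coe_iff]; norm_num

end Pool.Agent.Results.MP_bbd370_an.ConstantRateSpectralGap
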