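import Pool.Agent.X114.GF.GF8

/-!
MP_bbd370_an, Q1 (if the fragmentation rate `a` is bounded near `0` or near `∞`, does the
growth-fragmentation semigroup on `L¹((0,∞), x dx)` never have a spectral gap?). The answer is no,
even for kernels that conserve mass and for `a` bounded on all of `(0,∞)`:

* `r(x) = x` for `x < 1` and `r(x) = 2x` for `x ≥ 1`,
* `a(x) = 0` for `x < 1` and `a(x) = 1` for `x ≥ 1`,
* for `y ≥ 1` the fragments lie in `(0,1)` with density `b(x,y) = 2y`; for `y < 1` (where `a = 0`)
  they lie in `(0,y)` with density `b(x,y) = 2/y`.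

Here `r(x)/x - a(x) = 1` for all `x`, so the transport semigroup is `e^t` times an isometric group;
the fragmentation operator has rank one, so the essential type is at most `1`; but `√3 > 1` is an
eigenvalue of the generator.
-/

set_option autoImplicit false

namespace Pool.Agent.Results.MP_bbd370_an.SpectralGapBoundedRate

open MeasureTheory Pool.Agent.X114.GF

theorem result : IsGrowthRate rate ∧
    (Measurable frag ∧ (∀ x, 0 ≤ frag x) ∧ ∃ C : ℝ, ∀ x, frag x ≤ C) ∧
    IsConservativeKernel kernel ∧
    ∃ V : ℝ → Lp ℂ 1 mu →L[ℂ] Lp ℂ 1 mu,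
      IsGrowthFragmentationSemigroup mu rate frag kernel V ∧ HasSpectralGap V := by
  refine ⟨rate_ok, ⟨frag_meas, fun x => ?_, 1, fun x => ?_⟩, kernel_ok, main⟩
  · unfold frag; split_ifs <;> norm_num
  · unfold frag; split_ifs <;> norm_num

end Pool.Agent.Results.MP_bbd370_an.SpectralGapBoundedRate
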